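import Mathlib
import Pool.Agent.Helper12.LowDegMain

/-!
# Graph isomorphism and polynomials of bounded degree over the field with two elements

Isomorphism with one fixed graph `H` on `n` vertices is exponentially hard on average for the
polynomials of degree at most `d` over the field with two elements in the adjacency bits: for all
large `n` there are `H` and a finite family of graphs on `n` vertices such that every such
polynomial decides isomorphism with `H` correctly on a fraction `1 / 2 ± 2 ^ (- c n)` of the family,
where `c > 0` depends on `d` only.

Consequences: the isomorphism with `H` is not the majority of fewer than `2 ^ (c n)` such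
polynomials (so depth three circuits MAJORITY of MOD 2 of AND gates of fan-in `d` have top fan-in
at least `2 ^ (c n)`), and neither the set of the graphs isomorphic to `H` nor the set of the
other graphs is a union of fewer than `2 ^ (c n)` zero sets of (arbitrarily many) such polynomials
(so circuits OR of AND of MOD 2 of AND gates of fan-in `d` have top fan-in at least `2 ^ (c n)`,
whatever the number of the other gates).

Idea: a program for the AND of `d + 1` bits over the symmetric group `S₄` (an AND gate by the
commutators `c = a (ρ a ρ⁻¹)` of the double transpositions with a transposition) is written as a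
layered graph with four strands of vertices, two of which are closed up; with `N` such programs in
a row the graph is isomorphic to the one with the identity program exactly if the generalized
inner product of the bits is zero.  The correlation of the generalized inner product with
polynomials of degree `d` is bounded by taking `d + 1` derivatives.
-/

namespace Pool.Agent.Results.MP_f1a348_lc.LowDegreeCorrelation

/-- A polynomial of degree at most `d` over the field with two elements in the adjacency bits of a
graph on `n` vertices, given by its set of monomials (a monomial is a set of at most `d` bits). -/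
abbrev Poly (n d : ℕ) : Type :=
  {M : Finset (Finset (Fin n × Fin n)) // ∀ m ∈ M, m.card ≤ d}

open Classical in
/-- The adjacency bit of the pair `e`. -/
noncomputable def bit {V : Type} (G : SimpleGraph V) (e : V × V) : ZMod 2 :=
  if G.Adj e.1 e.2 then 1 else 0

/-- The value of a polynomial. -/
noncomputable def ev {n d : ℕ} (p : Poly n d) (G : SimpleGraph (Fin n)) : ZMod 2 :=
  ∑ m ∈ p.1, ∏ e ∈ m, bit G e

open Classical in
theorem result (d : ℕ) : ∃ c : ℝ, 0 < c ∧ ∃ n₀ : ℕ, ∀ n ≥ n₀,
    ∃ (H : SimpleGraph (Fin n)) (m : ℕ) (G : Fin m → SimpleGraph (Fin n)), 0 < m ∧
      (∀ p : Poly n d, |((Finset.univ.filter fun j : Fin m =>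
        (Nonempty (G j ≃g H) ↔ ev p (G j) = 1)).card : ℝ) / m - 1 / 2| ≤ (2 : ℝ) ^ (-(c * n))) ∧
      (∀ (t : ℕ) (p : Fin t → Poly n d), (∀ G : SimpleGraph (Fin n), Nonempty (G ≃g H) ↔
        t < 2 * (Finset.univ.filter fun i => ev (p i) G = 1).card) → (2 : ℝ) ^ (c * n) ≤ t) ∧
      (∀ (t : ℕ) (S : Fin t → Set (Poly n d)),
        ((∀ G : SimpleGraph (Fin n), Nonempty (G ≃g H) ↔ ∃ i, ∀ p ∈ S i, ev p G = 0) ∨
          (∀ G : SimpleGraph (Fin n), ¬ Nonempty (G ≃g H) ↔ ∃ i, ∀ p ∈ S i, ev p G = 0)) →
        (2 : ℝ) ^ (c * n) ≤ t) :=
  Pool.Agent.Helper12.LD.main d

end Pool.Agent.Results.MP_f1a348_lc.LowDegreeCorrelation
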