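import Pool.Agent.V11248.Sts.StsAct

/-!
# Steiner triple systems have Weisfeiler-Leman dimension of order `log n`

There is a constant `C` such that for every `k ≥ 1` there are two Steiner triple systems with the
same number `n = 3 ^ r` of points, `r ≤ C k`, whose block graphs are not isomorphic but are
distinguished neither by the `k`-dimensional Weisfeiler-Leman method nor by the `k`-dimensional
invertible-map test over all fields of characteristic different from `3`. Both systems are Hall
triple systems: for every point there is an automorphism of order two that fixes only this point;
equivalently every three points that are not in a block generate an affine plane of order three. So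
both methods need dimension at least `c log n` for the isomorphism problem of Steiner triple systems
and for the strongly regular graphs of their blocks; Miller's algorithm for this problem, which
individualizes `log n` generators, has the same order of magnitude in the exponent.

Construction. For an alternating bilinear map `β : V × V → Γ` over the field with three elements the
points are the triples `(v, z, i)` of `V × Γ × F_3` and the third point of the block through
`(v, z, i)` and `(v', z', i')` is `(- v - v', - z - z' + (i - i') β (v, v'), - i - i')`. The layers
`i = const` are affine spaces, and the blocks that meet all layers are the cells of the table of the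
group of exponent three on `V × Γ` with commutator map `2 β`. If `β` does not vanish on any subspace
of index three then the layers are the only large subsystems that satisfy the medial law, and so
isomorphic systems come from isomorphic groups. For the groups of `Pool/Agent/W879/GW`
(starting result `MP_f1a348_lc.GroupWLDimension`) the linear shears that are isomorphisms
locally also move the blocks, as the shears are affine on the layers; so the framework of
`Pool/Agent/TH658/Sos` for locally consistent systems of affine equations applies.
-/

set_option autoImplicit false

namespace Pool.Agent.Results.MP_f1a348_lc.SteinerSystems

open Pool.Agent.V11248.Sts Pool.Agent.W185.SRG Pool.Agent.TH658.Sos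

theorem result : ∃ C : ℕ, ∀ k : ℕ, 1 ≤ k →
    ∃ (P : Type) (_ : Fintype P) (S T : Finset (Finset P)) (r : ℕ),
      r ≤ C * k ∧ Fintype.card P = 3 ^ r ∧
      IsSteiner S ∧ IsHall S ∧ IsSteiner T ∧ IsHall T ∧
      IsEmpty (blockGraph S ≃g blockGraph T) ∧
      WLEquivalent k (blockGraph S) (blockGraph T) ∧
      IMEquiv 3 k (blockGraph S) (blockGraph T) := by
  refine ⟨1351, fun k hk => ?_⟩
  obtain ⟨P, iP, S, T, r, hr, hP, h1, h2, h3, h4, h5, X, L, i1, i2, i3, i4, Y, act, hT, hc, hK,
    m, hm⟩ := exists_pair (8 * k) (by omega)
  refine ⟨P, iP, S, T, r, by omega, hP, h1, h2, h3, h4, h5, ?_, ?_⟩
  · refine act_wlEquivalent act ?_
    rw [hc, hK]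
    omega
  · refine act.imEquiv hT (fun K _ hK3 => ?_) ?_ ?_
    · rw [hm, Nat.cast_pow]
      exact pow_ne_zero _ hK3
    · rw [hc, hK]
      omega
    · rw [hc, hK]
      omega

end Pool.Agent.Results.MP_f1a348_lc.SteinerSystems
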