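import Pool.Agent.V11163.GI.NetFin

/-!
# Graph isomorphism and tree tensor networks: bond dimension `2 ^ (Θ (n ^ 2))`

The input consists of the `n (n - 1)` adjacency bits of two graphs on `n` vertices (`Var n`, `IsIso`,
`Pool/Agent/H526R2/GI/Defs.lean`). A tree tensor network (`Net`, `Pool/Agent/TH700/TN/Defs.lean`) is a
binary tree. Every leaf reads one bit and holds a vector for each of its two values; every inner node
combines the vectors of its children by an arbitrary bilinear map; the output is a linear form of
the vector of the root. The network accepts if the output is not zero. The coefficients are in any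
field; the dimension `|W|` of the vectors is the bond dimension. A bit may be read by many leaves.
Matrix products (weighted automata and oblivious algebraic branching programs of width `|W|`),
dynamic programming over any tree of the input bits, and the counting of solutions modulo a prime by
dynamic programming are of this kind.

**Result.** If random networks with at most `r n (n - 1)` leaves (`r` leaves for an average bit) accept
no pair of nonisomorphic graphs, and each pair of isomorphic graphs with probability at least
`2 ^ (- n / 2 ^ (O (r)))`, then some of these networks have bond dimension at least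
`2 ^ (n ^ 2 / 2 ^ (O (r)))`. So for bond dimension `2 ^ (n ^ (2 - ε))` one needs
`Ω (ε n ^ 2 log n)` leaves. The bound is optimal for constant `r` up to the constant in the exponent:
a network over any field with one leaf for each bit and bond dimension `2 ^ (n (n - 1) / 2)` decides
graph isomorphism. (Decomposable circuits, DNNFs, which may combine the bits in a different way for
each permutation, have size `n ^ Θ(n)` only, by a starting result for another form of this problem.)

**Proof.** The tree is cut into `O (r ^ 2)` pieces with few variables (`exists_dec`); the output is a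
sum of `|W| ^ (O (r ^ 2))` products of functions of the pieces. The pieces are divided into two sides,
such that there are sets `A` and `E` of `n ^ 2 / 2 ^ (O (r))` bits of the first and of the second
graph which are read on one side only. For a relabelling `σ` let `F` be the set of the pairs `e ∈ A` with
`σ e ∈ E`. If `x` and `y` agree outside of `F` then the outputs for `(x, σ y)` form a matrix of rank at
most `|W| ^ (O (r ^ 2))`, and on a set of pairwise nonisomorphic graphs `x` with accepted `(x, σ x)` it
is a diagonal matrix without zeros on the diagonal. All but a `2 ^ (- c n)` fraction of the `σ` have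
`|F| ≥ c n ^ 2` (`few_bad'`), and a class of isomorphic graphs has at most `n !` members.
-/

set_option autoImplicit false

namespace Pool.Agent.Results.MP_f1a348_lc.TensorNetworks

open Pool.Agent.H526R2.GI Pool.Agent.TH700.TN Pool.Agent.V11163.GI

/-- (1) Let `T i` be a finite nonempty family of tree tensor networks over fields `K i`, with vectors
indexed by `W i` and output vectors `a i`, each with at most `r n (n - 1)` leaves (`r ≥ 1`). If no
`T i` accepts a pair of nonisomorphic graphs on `n` vertices, and every pair of isomorphic graphs is
accepted by at least a `2 ^ (- μ)` fraction of the `T i`, where `μ + 2 ≤ n / 2 ^ (16 r + 18)`, then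
`2 ^ (n ^ 2 / 2 ^ (16 r + 14)) ≤ 2 ^ (μ + 1) n ! |W i| ^ (64 r ^ 2)` for some `i`.

(2) For `0 < ε ≤ 1` and all large `n`: if such a family has bond dimensions at most `2 ^ w`, where
`w ≤ n ^ (2 - ε)`, and acceptance probability at least `2 ^ (- n ^ (1 - ε))`, then some `T i` has at
least `(ε / 200) n ^ 2 log₂ n` leaves.

(3) For `n ≥ 2` and every field there is a network with one leaf for each bit and with bond dimension
`2 ^ (n (n - 1) / 2)` which accepts exactly the pairs of isomorphic graphs. -/
theorem result :
    (∀ (n r μ : ℕ), 1 ≤ r → μ + 2 ≤ n / 2 ^ (16 * r + 18) →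
      ∀ (R : Type) [Fintype R] [Nonempty R] (K W : R → Type) [∀ i, Field (K i)]
        [∀ i, Fintype (W i)] (T : ∀ i, Net (K i) (Var n) (W i)) (a : ∀ i, W i → K i),
        (∀ i, ∑ v, (T i).reads v ≤ r * (n * (n - 1))) →
        (∀ i z, (T i).value (a i) z ≠ 0 → IsIso z) →
        (∀ z, IsIso z → Nat.card R ≤ 2 ^ μ * Nat.card {i // (T i).value (a i) z ≠ 0}) →
        ∃ i, 2 ^ (n ^ 2 / 2 ^ (16 * r + 14)) ≤
          2 ^ (μ + 1) * (n.factorial * Fintype.card (W i) ^ (64 * r ^ 2))) ∧
    (∀ ε : ℝ, 0 < ε → ε ≤ 1 → ∃ n₀ : ℕ, ∀ n ≥ n₀,
      ∀ w μ : ℕ, (w : ℝ) ≤ (n : ℝ) ^ (2 - ε) → (μ : ℝ) ≤ (n : ℝ) ^ (1 - ε) →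
      ∀ (R : Type) [Fintype R] [Nonempty R] (K W : R → Type) [∀ i, Field (K i)]
        [∀ i, Fintype (W i)] (T : ∀ i, Net (K i) (Var n) (W i)) (a : ∀ i, W i → K i),
        (∀ i, Fintype.card (W i) ≤ 2 ^ w) →
        (∀ i z, (T i).value (a i) z ≠ 0 → IsIso z) →
        (∀ z, IsIso z → Nat.card R ≤ 2 ^ μ * Nat.card {i // (T i).value (a i) z ≠ 0}) →
        ∃ i, ε / 200 * (n ^ 2 * Real.logb 2 n) ≤ (∑ v, (T i).reads v : ℕ)) ∧
    ∀ (K : Type) [Field K] (n : ℕ), 2 ≤ n →
      ∃ (W : Type) (_ : Fintype W) (T : Net K (Var n) W) (a : W → K),
        Fintype.card W = 2 ^ (n * (n - 1) / 2) ∧ (∀ v, T.reads v = 1) ∧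
          ∀ z, T.value a z ≠ 0 ↔ IsIso z :=
  ⟨fun _ _ _ hr hμ R _ _ K W _ _ T a hR hno hyes => net_random hr R K W T a hR hμ hno hyes,
    net_asymptotic, fun K _ n hn => by
      classical
      obtain ⟨T, a, h1, h2⟩ := net_upper K hn
      exact ⟨Pr n → Bool, inferInstance, T, a, by
        rw [Fintype.card_fun, Fintype.card_bool, card_Pr'], h1, h2⟩⟩

end Pool.Agent.Results.MP_f1a348_lc.TensorNetworks
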